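import Pool.Agent.Helper20.FS.St

/-!
# Project SL (MP_8296bc_an), module GE: Gelfand theory for a submultiplicative seminorm
-/

set_option autoImplicit false

open Topology Filter

namespace Pool.Agent.Helper3.SL

open Pool.Agent.Helper20.FA Pool.Agent.Helper20.FR Pool.Agent.Helper20.FS

private theorem le_of_pow_bd (x y C : ℝ) (hy : 0 ≤ y) (h : ∀ n : ℕ, x ^ n ≤ C * y ^ n) : x ≤ y := by
  by_contra hc
  rw [not_le] at hc
  have hx : 0 < x := lt_of_le_of_lt hy hc
  have h1 : ∀ n : ℕ, 1 ≤ C * (y / x) ^ n := by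
    intro n
    have h2 := h n
    have h3 : 0 < x ^ n := pow_pos hx n
    rw [div_pow, ← mul_div_assoc, le_div_iff₀ h3, one_mul]
    exact h2
  have h2 : Tendsto (fun n : ℕ => C * (y / x) ^ n) atTop (𝓝 (C * 0)) := by
    refine Tendsto.const_mul C (tendsto_pow_atTop_nhds_zero_of_lt_one (by positivity) ?_)
    rw [div_lt_one hx]
    exact hc
  have h3 : (1 : ℝ) ≤ C * 0 := ge_of_tendsto' h2 h1
  linarith

private theorem ge_aux (A : Type) [SeminormedCommRing A] [NormedAlgebra ℂ A] (I : Ideal A)
    (hI : ∀ x ∈ I, 1 / 2 ≤ ‖(1 : A) - x‖) :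
    ∃ χ : A →ₐ[ℂ] ℂ, (∀ a, ‖χ a‖ ≤ ‖a‖) ∧ ∀ x ∈ I, χ x = 0 := by
  classical
  let f : A →ₐ[ℂ] UniformSpace.Completion A :=
    { UniformSpace.Completion.coeRingHom with
      commutes' := fun r => rfl }
  have hf : ∀ a, ‖f a‖ = ‖a‖ := fun a => UniformSpace.Completion.norm_coe a
  have hfd : DenseRange f := UniformSpace.Completion.denseRange_coe
  have hcl : ∀ y ∈ Ideal.map f I, y ∈ closure (f '' (I : Set A)) := by
    intro y hy
    have hadd : ∀ u ∈ closure (f '' (I : Set A)), ∀ v ∈ closure (f '' (I : Set A)),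
        u + v ∈ closure (f '' (I : Set A)) := by
      intro u hu v hv
      refine map_mem_closure₂ continuous_add hu hv ?_
      rintro _ ⟨a, ha, rfl⟩ _ ⟨b, hb, rfl⟩
      exact ⟨a + b, I.add_mem ha hb, map_add f a b⟩
    have hmul : ∀ b : UniformSpace.Completion A, ∀ v ∈ closure (f '' (I : Set A)),
        b * v ∈ closure (f '' (I : Set A)) := by
      intro b v hv
      have hb : b ∈ closure (Set.range f) := hfd b
      refine map_mem_closure₂ continuous_mul hb hv ?_
      rintro _ ⟨a, rfl⟩ _ ⟨x, hx, rfl⟩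
      exact ⟨a * x, I.mul_mem_left a hx, map_mul f a x⟩
    refine Submodule.span_induction (p := fun y _ => y ∈ closure (f '' (I : Set A))) ?_ ?_ ?_ ?_ hy
    · intro x hx
      exact subset_closure hx
    · exact subset_closure ⟨0, I.zero_mem, map_zero f⟩
    · intro x z _ _ hx hz
      exact hadd x hx z hz
    · intro b x _ hx
      exact hmul b x hx
  have hJ : Ideal.map f I ≠ ⊤ := by
    intro h
    have h1 : (1 : UniformSpace.Completion A) ∈ closure (f '' (I : Set A)) :=
      hcl 1 (by rw [h]; exact Submodule.mem_top)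
    rw [Metric.mem_closure_iff] at h1
    obtain ⟨_, ⟨x, hx, rfl⟩, h2⟩ := h1 (1 / 2) (by norm_num)
    have h3 : dist (1 : UniformSpace.Completion A) (f x) = ‖(1 : A) - x‖ := by
      rw [dist_eq_norm, ← map_one f, ← map_sub, hf]
    rw [h3] at h2
    have := hI x hx
    linarith
  obtain ⟨M, hM, hJM⟩ := Ideal.exists_le_maximal _ hJ
  have := hM
  let φ : UniformSpace.Completion A →ₐ[ℂ] ℂ :=
    WeakDual.CharacterSpace.toAlgHom M.toCharacterSpace
  refine ⟨φ.comp f, ?_, ?_⟩
  · intro a
    have hb : ∀ y : UniformSpace.Completion A, ‖φ y‖ ≤ ‖(1 : UniformSpace.Completion A)‖ * ‖y‖ := by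
      intro y
      have h1 := (WeakDual.toStrongDual
        (M.toCharacterSpace : WeakDual ℂ (UniformSpace.Completion A))).le_opNorm y
      refine h1.trans ?_
      exact mul_le_mul_of_nonneg_right
        (WeakDual.CharacterSpace.norm_le_norm_one _) (norm_nonneg y)
    have hpow : ∀ n : ℕ, 1 ≤ n → ‖a ^ n‖ ≤ ‖a‖ ^ n := fun n hn => norm_pow_le' a hn
    refine le_of_pow_bd _ _ (max 1 ‖(1 : UniformSpace.Completion A)‖) (norm_nonneg a) ?_
    intro n
    rcases Nat.eq_zero_or_pos n with rfl | hn
    · simp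
    · have h1 := hb (f (a ^ n))
      rw [hf] at h1
      have h2 : ‖(φ.comp f) a‖ ^ n = ‖φ (f (a ^ n))‖ := by
        rw [← norm_pow]
        congr 1
        rw [AlgHom.comp_apply, ← map_pow, ← map_pow]
      rw [h2]
      refine h1.trans ?_
      exact mul_le_mul (le_max_right _ _) (hpow n hn) (norm_nonneg _) (by positivity)
  · intro x hx
    exact M.toCharacterSpace_apply_eq_zero_of_mem (hJM (Ideal.mem_map_of_mem f hx))

/-- Module GE. -/
theorem hGE : StGE := by
  intro A _ _ p hp I hI
  letI i1 : SeminormedCommRing A :=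
    { (inferInstance : CommRing A) with
      norm := p
      dist := fun a b => p (-a + b)
      dist_self := fun a => by
        change p (-a + a) = 0
        rw [neg_add_cancel, map_zero]
      dist_comm := fun a b => by
        change p (-a + b) = p (-b + a)
        rw [← map_neg_eq_map p (-a + b), neg_add, neg_neg, add_comm]
      dist_triangle := fun a b c => by
        change p (-a + c) ≤ p (-a + b) + p (-b + c)
        have h := map_add_le_add p (-a + b) (-b + c)
        have e : (-a + b) + (-b + c) = -a + c := by ring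
        rwa [e] at h
      dist_eq := fun a b => rfl
      norm_mul_le := hp }
  letI i2 : NormedAlgebra ℂ A :=
    { (inferInstance : Algebra ℂ A) with
      norm_smul_le := fun r x => le_of_eq (map_smul_eq_mul p r x) }
  exact ge_aux A I hI

end Pool.Agent.Helper3.SL
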